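import Pool.Agent.helper11.RPQ.SpecT
import Pool.Agent.helper62.RS.All

/-!
# MP_07c750, project RPQ, row SPD (helper91): the eigenfunctions span a dense subspace
-/

set_option autoImplicit false

open scoped MatrixGroups ContDiff Topology UpperHalfPlane ComplexConjugate
open UpperHalfPlane MeasureTheory Filter Set

namespace Pool.Agent.RPQ

open Pool.Agent.RS
open Pool.Agent.MS (BA BB st pf gk Dk amk)

/-! ## Convolutions commute -/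

/-- the kernel of `conv κ` -/
noncomputable def SPD_B (κ : ℝ → ℝ) (w x : ℍ) : ℂ := ((κ (QU.tt w x) : ℝ) : ℂ)

theorem SPD_conv (κ : ℝ → ℝ) (u : ℍ → ℂ) (z : ℍ) : QU.conv κ u z = ∫ x : ℍ, SPD_B κ z x * u x := by
  unfold QU.conv SPD_B
  simp only [Complex.real_smul]

theorem SPD_Bc (κ : ℝ → ℝ) (hκ : QU.RK κ) : Continuous (Function.uncurry (SPD_B κ)) := by
  obtain ⟨-, -, -, -, ttc, -, -, -⟩ := QU.A_TTT
  exact Complex.continuous_ofReal.comp (hκ.smooth.continuous.comp ttc)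

theorem SPD_Kp (κ : ℝ → ℝ) (hκ : QU.RK κ) : ∃ R : ℝ, ∀ z w : ℍ, κ (QU.tt z w) ≠ 0 → dist z w ≤ R := by
  obtain ⟨-, -, -, -, -, ttR, -, -⟩ := QU.A_TTT
  obtain ⟨s, hs⟩ := hκ.supp
  obtain ⟨R, -, hR⟩ := ttR s
  refine ⟨R, fun z w h => hR z w ?_⟩
  by_contra h1
  exact h (hs _ (not_le.mp h1).le)

theorem SPD_Bp (κ : ℝ → ℝ) (hκ : QU.RK κ) : ∃ R : ℝ, ∀ z w, SPD_B κ z w ≠ 0 → dist z w ≤ R := by
  obtain ⟨R, hR⟩ := SPD_Kp κ hκ
  refine ⟨R, fun z w h => hR z w fun h0 => h ?_⟩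
  unfold SPD_B
  rw [h0, Complex.ofReal_zero]

theorem SPD_Bi (κ : ℝ → ℝ) (g : SL(2, ℝ)) (z w : ℍ) : SPD_B κ (g • z) (g • w) = SPD_B κ z w := by
  obtain ⟨-, -, -, tti, -, -, -, -⟩ := QU.A_TTT
  unfold SPD_B
  rw [tti]

theorem SPD_Bs (κ : ℝ → ℝ) (z w : ℍ) : SPD_B κ z w = SPD_B κ w z := by
  obtain ⟨-, -, tts, -, -, -, -, -⟩ := QU.A_TTT
  unfold SPD_B
  rw [tts]

theorem SPD_comm (κ κ' : ℝ → ℝ) (hκ : QU.RK κ) (hκ' : QU.RK κ') (v : ℍ → ℂ) (hv : Continuous v) (z : ℍ) :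
    QU.conv κ (QU.conv κ' v) z = QU.conv κ' (QU.conv κ v) z := by
  obtain ⟨-, -, -, hx, -, -⟩ := A_NR1 (fun _ => 0) continuous_const HasCompactSupport.zero
  have e1 : QU.conv κ (QU.conv κ' v) z = ∫ w : ℍ, SPD_B κ z w * ∫ x : ℍ, SPD_B κ' w x * v x := by
    rw [SPD_conv]
    simp only [SPD_conv]
  have e2 : QU.conv κ' (QU.conv κ v) z = ∫ w : ℍ, SPD_B κ' z w * ∫ x : ℍ, SPD_B κ w x * v x := by
    rw [SPD_conv]
    simp only [SPD_conv]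
  rw [e1, e2, NR5_swap (SPD_B κ) (SPD_B κ') v (SPD_Bc κ hκ) (SPD_Bc κ' hκ') (SPD_Bp κ hκ) (SPD_Bp κ' hκ') hv z,
    NR5_swap (SPD_B κ') (SPD_B κ) v (SPD_Bc κ' hκ') (SPD_Bc κ hκ) (SPD_Bp κ' hκ') (SPD_Bp κ hκ) hv z]
  refine integral_congr_ae (Eventually.of_forall fun x => ?_)
  show (∫ w : ℍ, SPD_B κ z w * SPD_B κ' w x) * v x = (∫ w : ℍ, SPD_B κ' z w * SPD_B κ w x) * v x
  rw [NR5_comm (SPD_B κ) (SPD_B κ') (SPD_Bi κ) (SPD_Bi κ') (SPD_Bs κ) (SPD_Bs κ') z x (hx z x)]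

theorem SPD_PKer (Γ : Subgroup SL(2, ℝ)) (κ : ℝ → ℝ) (hκ : QU.RK κ) : QU.PKer Γ (fun z w => κ (QU.tt z w)) := by
  obtain ⟨-, -, tts, tti, ttc, -, -, -⟩ := QU.A_TTT
  refine ⟨hκ.smooth.continuous.comp ttc, fun z w => ?_, fun γ z w => ?_, SPD_Kp κ hκ⟩
  · show κ (QU.tt z w) = κ (QU.tt w z)
    rw [tts]
  · show κ (QU.tt (γ • z) (γ • w)) = κ (QU.tt z w)
    rw [show QU.tt (γ • z) (γ • w) = QU.tt z w from tti (γ : SL(2, ℝ)) z w]

theorem SPD_kop (κ : ℝ → ℝ) (u : ℍ → ℂ) (z : ℍ) : kop (fun z w => κ (QU.tt z w)) u z = QU.conv κ u z := by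
  rw [SPD_conv]
  rfl

theorem SPD_inv (Γ : Subgroup SL(2, ℝ)) (κ : ℝ → ℝ) (hκ : QU.RK κ) (v : ℍ → ℂ) (hv : InvC Γ v) : InvC Γ (QU.conv κ v) := by
  obtain ⟨cvI, -, -, -, -, cvC, -, -⟩ := QU.A_CVB ℂ
  refine ⟨cvC κ v hκ hv.1, fun γ z => ?_⟩
  have h1 := cvI κ v (γ : SL(2, ℝ)) z
  have h2 : (fun w : ℍ => v ((γ : SL(2, ℝ)) • w)) = v := by
    funext w
    exact hv.2 γ w
  rw [h2] at h1
  exact h1.symm

/-! ## The space `L²(F)` -/

theorem SPD_norm {Y : Type} [MeasurableSpace Y] {μ : Measure Y} (v : Lp ℂ 2 μ) : ‖v‖ ^ 2 = ∫ y, ‖v y‖ ^ 2 ∂μ := by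
  have h1 : inner ℂ v v = ((‖v‖ ^ 2 : ℝ) : ℂ) := by
    rw [inner_self_eq_norm_sq_to_K]
    push_cast
    rfl
  have h2 : inner ℂ v v = ((∫ y, ‖v y‖ ^ 2 ∂μ : ℝ) : ℂ) := by
    rw [L2.inner_def, ← integral_complex_ofReal]
    refine integral_congr_ae (Filter.Eventually.of_forall fun y => ?_)
    show inner ℂ (v y) (v y) = ((‖v y‖ ^ 2 : ℝ) : ℂ)
    rw [inner_self_eq_norm_sq_to_K]
    push_cast
    rfl
  have h3 := h1.symm.trans h2
  exact_mod_cast h3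

theorem SPD_fin (Γ : Subgroup SL(2, ℝ)) (F : Set ℍ) (hΓ : QU.SurfaceGroup Γ) (hF : QU.NiceDom Γ F) :
    IsFiniteMeasure ((volume : Measure ℍ).restrict F) :=
  ⟨by
    rw [Measure.restrict_apply_univ]
    exact (QU.A_DOB Γ F hΓ hF).2.2.2.1⟩

theorem SPD_mem (Γ : Subgroup SL(2, ℝ)) (F : Set ℍ) (hΓ : QU.SurfaceGroup Γ) (hF : QU.NiceDom Γ F) (v : ℍ → ℂ) (hv : Continuous v) :
    MemLp v 2 ((volume : Measure ℍ).restrict F) := by
  have := SPD_fin Γ F hΓ hF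
  obtain ⟨K, hK, hFK⟩ := hF.rel
  obtain ⟨B, hB⟩ := hK.exists_bound_of_continuousOn hv.continuousOn
  refine MemLp.of_bound hv.aestronglyMeasurable B ?_
  rw [ae_restrict_iff' hF.meas]
  exact Filter.Eventually.of_forall fun z hz => hB z (hFK hz)

/-- the span of the eigenfunctions -/
def SPD_D (Γ : Subgroup SL(2, ℝ)) : Submodule ℂ (ℍ → ℂ) := Submodule.span ℂ {v : ℍ → ℂ | ∃ lam : ℝ, EigL Γ lam v}

theorem SPD_Dc (Γ : Subgroup SL(2, ℝ)) (v : ℍ → ℂ) (hv : v ∈ SPD_D Γ) : InvC Γ v := by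
  unfold SPD_D at hv
  induction hv using Submodule.span_induction with
  | mem x hx =>
    obtain ⟨lam, h1, h2, -⟩ := hx
    exact ⟨INB_cont x h1, h2⟩
  | zero => exact ⟨continuous_const, fun _ _ => rfl⟩
  | add x y _ _ h1 h2 =>
    refine ⟨h1.1.add h2.1, fun γ z => ?_⟩
    show x (γ • z) + y (γ • z) = x z + y z
    rw [h1.2, h2.2]
  | smul a x _ h1 =>
    refine ⟨h1.1.const_smul a, fun γ z => ?_⟩
    show a • x (γ • z) = a • x z
    rw [h1.2]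

/-- the classes of the elements of the span -/
noncomputable def SPD_S (Γ : Subgroup SL(2, ℝ)) (F : Set ℍ) : Submodule ℂ (Lp ℂ 2 ((volume : Measure ℍ).restrict F)) where
  carrier := {x | ∃ v ∈ SPD_D Γ, (x : ℍ → ℂ) =ᵐ[(volume : Measure ℍ).restrict F] v}
  zero_mem' := ⟨0, (SPD_D Γ).zero_mem, Lp.coeFn_zero ℂ 2 _⟩
  add_mem' := by
    rintro x y ⟨v, hv, hx⟩ ⟨w, hw, hy⟩
    exact ⟨v + w, (SPD_D Γ).add_mem hv hw, (Lp.coeFn_add x y).trans (hx.add hy)⟩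
  smul_mem' := by
    rintro a x ⟨v, hv, hx⟩
    exact ⟨a • v, (SPD_D Γ).smul_mem a hv, (Lp.coeFn_smul a x).trans (hx.const_smul a)⟩

/-- eigenvectors of the operators of the convolutions are classes of elements of the span -/
theorem SPD_eig (hSPK : SPK_stmt) (hNRS : NRS_stmt) (Γ : Subgroup SL(2, ℝ)) (F : Set ℍ) (hΓ : QU.SurfaceGroup Γ) (hF : QU.NiceDom Γ F)
    (κ : ℝ → ℝ) (hκ : QU.RK κ) (T : Lp ℂ 2 ((volume : Measure ℍ).restrict F) →L[ℂ] Lp ℂ 2 ((volume : Measure ℍ).restrict F))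
    (hT : IsOp ((volume : Measure ℍ).restrict F) (perH Γ (fun z w => κ (QU.tt z w))) T) (hTs : ∀ x y, inner ℂ (T x) y = inner ℂ x (T y))
    (μ : ℂ) (hμ : μ ≠ 0) (y : Lp ℂ 2 ((volume : Measure ℍ).restrict F)) (hy : T y = μ • y) : y ∈ SPD_S Γ F := by
  have := SPD_fin Γ F hΓ hF
  by_cases hy0 : y = 0
  · rw [hy0]
    exact (SPD_S Γ F).zero_mem
  obtain ⟨-, -, hunf, hrng, -⟩ := hSPK Γ F _ hΓ hF (SPD_PKer Γ κ hκ)
  -- the eigenvalue is real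
  have hyy : inner ℂ y y ≠ (0 : ℂ) := inner_self_ne_zero.mpr hy0
  have hre : conj μ = μ := by
    have h1 := hTs y y
    rw [hy, inner_smul_left, inner_smul_right] at h1
    exact mul_right_cancel₀ hyy h1
  obtain ⟨q, hq⟩ : ∃ q : ℝ, (q : ℂ) = μ := ⟨μ.re, Complex.conj_eq_iff_re.mp hre⟩
  have hq0 : q ≠ 0 := by
    rintro rfl
    exact hμ (by rw [← hq, Complex.ofReal_zero])
  have hyi : IntegrableOn (y : ℍ → ℂ) F := (Lp.memLp y).integrable one_le_two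
  have hI := hrng y hyi
  obtain ⟨v, hv⟩ : ∃ v : ℍ → ℂ, v = fun z => μ⁻¹ * ∫ w in F, perH Γ (fun z w => κ (QU.tt z w)) z w * y w := ⟨_, rfl⟩
  have hvI : InvC Γ v := by
    rw [hv]
    refine ⟨continuous_const.mul hI.1, fun γ z => ?_⟩
    show μ⁻¹ * (∫ w in F, perH Γ (fun z w => κ (QU.tt z w)) (γ • z) w * y w) = _
    rw [show (∫ w in F, perH Γ (fun z w => κ (QU.tt z w)) (γ • z) w * y w) =
      ∫ w in F, perH Γ (fun z w => κ (QU.tt z w)) z w * y w from hI.2 γ z]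
  have hye : (y : ℍ → ℂ) =ᵐ[(volume : Measure ℍ).restrict F] v := by
    have h1 := hT y
    rw [hy] at h1
    filter_upwards [h1, Lp.coeFn_smul μ y] with z h2 h3
    rw [hv]
    show y z = μ⁻¹ * ∫ w in F, perH Γ (fun z w => κ (QU.tt z w)) z w * y w
    rw [← h2, h3]
    show y z = μ⁻¹ * (μ * y z)
    rw [← mul_assoc, inv_mul_cancel₀ hμ, one_mul]
  have hk : ∀ z, kop (fun z w => κ (QU.tt z w)) v z = (q : ℂ) * v z := by
    intro z
    rw [← hunf v hvI.1 hvI.2 z]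
    have h1 : ∫ w in F, perH Γ (fun z w => κ (QU.tt z w)) z w * v w =
        ∫ w in F, perH Γ (fun z w => κ (QU.tt z w)) z w * y w := by
      refine integral_congr_ae ?_
      filter_upwards [hye] with w hw
      rw [hw]
    rw [h1, hq, hv]
    show _ = μ * (μ⁻¹ * _)
    rw [← mul_assoc, mul_inv_cancel₀ hμ, one_mul]
  obtain ⟨E, hE, hEm⟩ := A_NRF Γ F _ q hΓ hF (SPD_PKer Γ κ hκ) hq0
  have hEs : ∀ κ' : ℝ → ℝ, QU.RK κ' → ∀ u ∈ E, QU.conv κ' u ∈ E := by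
    intro κ' hκ' u hu
    obtain ⟨huI, hue⟩ := (hEm u).mp hu
    refine (hEm _).mpr ⟨SPD_inv Γ κ' hκ' u huI, fun z => ?_⟩
    rw [SPD_kop, SPD_comm κ κ' hκ hκ' u huI.1 z]
    have h1 : QU.conv κ u = fun z => (q : ℂ) * u z := by
      funext z
      rw [← SPD_kop]
      exact hue z
    rw [h1, SPD_conv, SPD_conv, ← integral_const_mul]
    refine integral_congr_ae (Eventually.of_forall fun x => ?_)
    show SPD_B κ' z x * ((q : ℂ) * u x) = (q : ℂ) * (SPD_B κ' z x * u x)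
    ring
  have hle := hNRS Γ F E hΓ hF hE (fun u hu => ((hEm u).mp hu).1) hEs
  exact ⟨v, hle ((hEm v).mpr ⟨hvI, hk⟩), hye⟩

/-- the operators of the convolutions vanish on the orthogonal complement -/
theorem SPD_zero (hSPK : SPK_stmt) (hNRS : NRS_stmt) (Γ : Subgroup SL(2, ℝ)) (F : Set ℍ) (hΓ : QU.SurfaceGroup Γ) (hF : QU.NiceDom Γ F)
    (κ : ℝ → ℝ) (hκ : QU.RK κ) (T : Lp ℂ 2 ((volume : Measure ℍ).restrict F) →L[ℂ] Lp ℂ 2 ((volume : Measure ℍ).restrict F))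
    (hT : IsOp ((volume : Measure ℍ).restrict F) (perH Γ (fun z w => κ (QU.tt z w))) T) (hTc : IsCompactOperator T)
    (hTs : ∀ x y, inner ℂ (T x) y = inner ℂ x (T y)) (x0 : Lp ℂ 2 ((volume : Measure ℍ).restrict F)) (hx0 : x0 ∈ (SPD_S Γ F)ᗮ) : T x0 = 0 := by
  have hsym : T.IsSymmetric := fun x y => hTs x y
  have hbot := ContinuousLinearMap.orthogonalComplement_iSup_eigenspaces_eq_bot hTc hsym
  have hle : (⨆ μ, Module.End.eigenspace (T : Module.End ℂ (Lp ℂ 2 ((volume : Measure ℍ).restrict F))) μ) ≤ (ℂ ∙ T x0)ᗮ := by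
    refine iSup_le fun μ y hy => ?_
    rw [Module.End.mem_eigenspace_iff] at hy
    have hy' : T y = μ • y := hy
    rw [Submodule.mem_orthogonal_singleton_iff_inner_right, hTs, hy', inner_smul_right]
    by_cases hμ : μ = 0
    · rw [hμ, zero_mul]
    · have h1 := SPD_eig hSPK hNRS Γ F hΓ hF κ hκ T hT hTs μ hμ y hy'
      rw [(Submodule.mem_orthogonal' _ _).mp hx0 y h1, mul_zero]
  have h2 : T x0 ∈ (⨆ μ, Module.End.eigenspace (T : Module.End ℂ (Lp ℂ 2 ((volume : Measure ℍ).restrict F))) μ)ᗮ := by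
    rw [Submodule.mem_orthogonal']
    intro y hy
    exact Submodule.mem_orthogonal_singleton_iff_inner_right.mp (hle hy)
  rw [hbot, Submodule.mem_bot] at h2
  exact h2

theorem SPD_dense (hSPK : SPK_stmt) (hNRS : NRS_stmt) (Γ : Subgroup SL(2, ℝ)) (F : Set ℍ) (hΓ : QU.SurfaceGroup Γ) (hF : QU.NiceDom Γ F)
    (u : ℍ → ℂ) (hu : InvC Γ u) (U : Lp ℂ 2 ((volume : Measure ℍ).restrict F)) (hU : (U : ℍ → ℂ) =ᵐ[(volume : Measure ℍ).restrict F] u) :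
    U ∈ (SPD_S Γ F).topologicalClosure := by
  have := SPD_fin Γ F hΓ hF
  rw [← Submodule.orthogonal_orthogonal_eq_closure, Submodule.mem_orthogonal]
  intro x0 hx0
  obtain ⟨fam, hfam⟩ := QU.A_KFM
  obtain ⟨K, hK, hFK⟩ := hF.rel
  obtain ⟨M, hM⟩ : ∃ M : ℝ, M = (measureUnivNNReal ((volume : Measure ℍ).restrict F) : ℝ) ^ (2 : ENNReal).toReal⁻¹ := ⟨_, rfl⟩
  have hM0 : 0 ≤ M := by
    rw [hM]
    positivity
  have key : ∀ δ : ℝ, 0 < δ → ‖inner ℂ x0 U‖ ≤ ‖x0‖ * (M * δ) := by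
    intro δ hδ
    obtain ⟨η, hη, hap⟩ := (QU.A_APX fam hfam).1 ℂ u hu.1 K hK δ hδ
    have hRK := hfam.rk η hη
    obtain ⟨-, -, hunf, -, T, hT, hTc, hTs⟩ := hSPK Γ F _ hΓ hF (SPD_PKer Γ (fam η) hRK)
    have h0 := SPD_zero hSPK hNRS Γ F hΓ hF (fam η) hRK T hT hTc hTs x0 hx0
    have h1 : inner ℂ x0 U = inner ℂ x0 (U - T U) := by
      rw [inner_sub_right, ← hTs, h0, inner_zero_left, sub_zero]
    rw [h1]
    refine (norm_inner_le_norm _ _).trans (mul_le_mul_of_nonneg_left ?_ (norm_nonneg _))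
    rw [hM]
    refine Lp.norm_le_of_ae_bound hδ.le ?_
    have h2 := hT U
    have h3 : ∀ᵐ z ∂((volume : Measure ℍ).restrict F), z ∈ F := ae_restrict_mem hF.meas
    filter_upwards [h2, hU, h3, Lp.coeFn_sub U (T U)] with z h4 h5 h6 h7
    rw [h7]
    show ‖U z - (T U) z‖ ≤ δ
    have h8 : ∫ w in F, perH Γ (fun z w => fam η (QU.tt z w)) z w * U w = QU.conv (fam η) u z := by
      rw [← SPD_kop, ← hunf u hu.1 hu.2 z]
      refine integral_congr_ae ?_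
      filter_upwards [hU] with w hw
      rw [hw]
    rw [h4, h8, h5, norm_sub_rev]
    exact hap η hη le_rfl z (hFK h6)
  have h9 : ‖inner ℂ x0 U‖ ≤ 0 := by
    refine le_of_forall_pos_le_add fun ε hε => ?_
    have h10 : 0 < ‖x0‖ * M + 1 := by positivity
    have h11 := key (ε / (‖x0‖ * M + 1)) (div_pos hε h10)
    have h12 : ‖x0‖ * (M * (ε / (‖x0‖ * M + 1))) ≤ ε := by
      rw [← mul_assoc, ← mul_div_assoc, div_le_iff₀ h10]
      nlinarith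
    linarith
  exact norm_le_zero_iff.mp h9

theorem SPD_proof (hSPK : SPK_stmt) (hNRS : NRS_stmt) : SPD_stmt := by
  intro Γ F hΓ hF u e hu he
  have := SPD_fin Γ F hΓ hF
  have hm := SPD_mem Γ F hΓ hF u hu.1
  obtain ⟨U, hU⟩ : ∃ U : Lp ℂ 2 ((volume : Measure ℍ).restrict F), (U : ℍ → ℂ) =ᵐ[(volume : Measure ℍ).restrict F] u :=
    ⟨hm.toLp u, hm.coeFn_toLp⟩
  have hd := SPD_dense hSPK hNRS Γ F hΓ hF u hu U hU
  have hd' : U ∈ closure ((SPD_S Γ F : Submodule ℂ _) : Set (Lp ℂ 2 ((volume : Measure ℍ).restrict F))) := hd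
  obtain ⟨w, hw, hwd⟩ := Metric.mem_closure_iff.mp hd' (Real.sqrt e) (Real.sqrt_pos.mpr he)
  obtain ⟨v, hv, hwv⟩ := hw
  refine ⟨v, hv, ?_⟩
  have h1 : nn F (fun z => u z - v z) = ‖U - w‖ ^ 2 := by
    rw [SPD_norm]
    unfold nn
    refine integral_congr_ae ?_
    filter_upwards [hU, hwv, Lp.coeFn_sub U w] with z h1 h2 h3
    rw [h3]
    show ‖u z - v z‖ ^ 2 = ‖U z - w z‖ ^ 2
    rw [h1, h2]
  rw [h1]
  rw [dist_eq_norm] at hwd
  calc ‖U - w‖ ^ 2 ≤ Real.sqrt e ^ 2 := pow_le_pow_left₀ (norm_nonneg _) hwd.le 2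
    _ = e := Real.sq_sqrt he.le

end Pool.Agent.RPQ
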